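import Pool.Agent.Lib.MP_defcf3_al.BR.StageT

/-!
# Module SYL: the Sylow step
-/

set_option autoImplicit false

namespace BR7.H78

universe u

section

variable {G : Type u} [Group G] [TopologicalSpace G] [IsTopologicalGroup G] (H : Subgroup G)

lemma open_ker (hH : IsOpen (H : Set G)) [Finite (G ⧸ H)] :
    IsOpen ((MulAction.toPermHom G (G ⧸ H)).ker : Set G) := by
  have e : ((MulAction.toPermHom G (G ⧸ H)).ker : Set G) =
      ⋂ x : G ⧸ H, {g : G | (Quotient.out x)⁻¹ * g * Quotient.out x ∈ H} := by
    ext g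
    rw [SetLike.mem_coe, MonoidHom.mem_ker, Set.mem_iInter]
    have key : ∀ x : G ⧸ H, g • x = x ↔ (Quotient.out x)⁻¹ * g * Quotient.out x ∈ H := by
      intro x
      have h1 : (QuotientGroup.mk (Quotient.out x) : G ⧸ H) = x := QuotientGroup.out_eq' x
      generalize Quotient.out x = k at h1 ⊢
      subst h1
      have h2 : g • (QuotientGroup.mk k : G ⧸ H) = QuotientGroup.mk (g * k) := rfl
      rw [h2, eq_comm, QuotientGroup.eq, mul_assoc]
    constructor
    · intro h x
      rw [Set.mem_ofPred_eq, ← key]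
      exact DFunLike.congr_fun h x
    · intro h
      ext x : 1
      exact (key x).2 (h x)
  rw [e]
  apply isOpen_iInter_of_finite
  intro x
  exact hH.preimage (by fun_prop : Continuous fun g : G => (Quotient.out x)⁻¹ * g * Quotient.out x)

end

theorem syl : SylStatement.{u} := by
  intro G _ _ _ H hH hidx
  classical
  have hfin : Finite (G ⧸ H) := by
    apply Nat.finite_of_card_ne_zero
    rw [← Subgroup.index, hidx]
    norm_num
  have hcard : Nat.card (G ⧸ H) = 7 := hidx
  have hkero := open_ker H hH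
  set φ := MulAction.toPermHom G (G ⧸ H) with hφ
  have : Fact (Nat.Prime 7) := ⟨by norm_num⟩
  have hfinS : Finite φ.range := inferInstance
  obtain ⟨P0⟩ : Nonempty (Sylow 7 φ.range) := inferInstance
  set P : Subgroup G := (P0 : Subgroup φ.range).comap φ.rangeRestrict with hP
  have hkerP : φ.ker ≤ P := by
    intro g hg
    rw [hP, Subgroup.mem_comap]
    have : φ.rangeRestrict g = 1 := Subtype.ext ((MonoidHom.mem_ker).1 hg)
    rw [this]
    exact (P0 : Subgroup φ.range).one_mem
  have hPo : IsOpen (P : Set G) := Subgroup.isOpen_mono hkerP hkero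
  have hPi : Nat.Coprime P.index 7 := by
    rw [hP, Subgroup.index_comap_of_surjective _ φ.rangeRestrict_surjective, Nat.coprime_comm,
      Nat.Prime.coprime_iff_not_dvd (by norm_num)]
    exact P0.not_dvd_index
  -- the order of the Sylow subgroup
  obtain ⟨k, hk⟩ := (IsPGroup.iff_card (p := 7)).1 P0.isPGroup'
  have hdvd : Nat.card (P0 : Subgroup φ.range) ∣ Nat.factorial 7 := by
    have h1 : Nat.card (P0 : Subgroup φ.range) ∣ Nat.card φ.range := Subgroup.card_subgroup_dvd_card _
    have h2 : Nat.card φ.range ∣ Nat.card (Equiv.Perm (G ⧸ H)) := Subgroup.card_subgroup_dvd_card _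
    rw [Nat.card_perm, hcard] at h2
    exact h1.trans h2
  have hk1 : k ≤ 1 := by
    by_contra h
    push Not at h
    have h1 : 7 ^ 2 ∣ Nat.factorial 7 := (pow_dvd_pow 7 h).trans (hk ▸ hdvd)
    revert h1
    decide
  -- an injective homomorphism to the residues
  obtain ⟨ε, hε⟩ : ∃ ε : (P0 : Subgroup φ.range) →* Multiplicative (ZMod 7),
      Function.Injective ε := by
    interval_cases k
    · have hsub : Subsingleton (P0 : Subgroup φ.range) := by
        rw [pow_zero] at hk
        exact (Nat.card_eq_one_iff_unique.1 hk).1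
      exact ⟨1, fun a b _ => Subsingleton.elim a b⟩
    · rw [pow_one] at hk
      have hcyc : IsCyclic (P0 : Subgroup φ.range) := isCyclic_of_prime_card hk
      obtain ⟨e⟩ : Nonempty (Multiplicative (ZMod 7) ≃* (P0 : Subgroup φ.range)) := by
        have := zmodCyclicMulEquiv hcyc
        rw [hk] at this
        exact ⟨this⟩
      exact ⟨e.symm.toMonoidHom, e.symm.injective⟩
  let ψ : P →* (P0 : Subgroup φ.range) := φ.rangeRestrict.subgroupComap (P0 : Subgroup φ.range)
  have hψ : ∀ g : P, ψ g = 1 ↔ φ g = 1 := by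
    intro g
    constructor
    · intro h
      have := congrArg (fun t : (P0 : Subgroup φ.range) => ((t : φ.range) : Equiv.Perm (G ⧸ H))) h
      exact this
    · intro h
      exact Subtype.ext (Subtype.ext h)
  refine ⟨P, fun g => Multiplicative.toAdd (ε (ψ g)), hPo, hPi, ?_, ?_, ?_⟩
  · intro g h
    show Multiplicative.toAdd (ε (ψ (g * h))) = _
    rw [map_mul, map_mul]
    rfl
  · rw [IsLocallyConstant.iff_exists_open]
    intro g
    refine ⟨{h : P | g⁻¹ * h ∈ φ.ker.subgroupOf P}, ?_, ?_, ?_⟩
    · have h1 : IsOpen ((φ.ker.subgroupOf P : Subgroup P) : Set P) :=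
        hkero.preimage continuous_subtype_val
      exact h1.preimage (by fun_prop : Continuous fun h : P => g⁻¹ * h)
    · rw [Set.mem_ofPred_eq, inv_mul_cancel]
      exact Subgroup.one_mem _
    · intro h hh
      rw [Set.mem_ofPred_eq, Subgroup.mem_subgroupOf, MonoidHom.mem_ker] at hh
      have h1 : ψ (g⁻¹ * h) = 1 := (hψ _).2 hh
      rw [map_mul, map_inv, inv_mul_eq_one] at h1
      rw [h1]
  · intro g hg
    have h1 : ε (ψ g) = 1 := hg
    have h2 : ψ g = 1 := hε (by rw [h1, map_one])
    have h3 := (hψ g).1 h2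
    have h4 := DFunLike.congr_fun h3 (QuotientGroup.mk 1 : G ⧸ H)
    have h5 : (QuotientGroup.mk ((g : G) * 1) : G ⧸ H) = QuotientGroup.mk 1 := h4
    rw [mul_one] at h5
    have h6 := QuotientGroup.eq.1 h5.symm
    simpa using h6

end BR7.H78
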